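import Pool.Agent.TTF.BooF

/-!
# Q1 and Q2 fail in a forcing extension

MP_0d317a_lc. `Boo.Q1 B` and `Boo.Q2 B` are the truth values of the statements Q1 and Q2 in the Boolean-valued model `V^B`,
for any complete Boolean algebra `B`; they are defined uniformly in `B`, and for `B = Prop` they are the statements Q1 and Q2
(first two parts of the theorem). There is, without any hypothesis, a nontrivial complete Boolean algebra `B`, adding no
new reals, such that both truth values are `⊥`, i.e. `V^B` satisfies the negations of Q1 and Q2.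
-/

set_option autoImplicit false

namespace Pool.Agent.Results.MP_0d317a_lc.BooleanValuedFailure

open TTF

theorem result :
    (Boo.Q1 Prop ↔ Std.Q1) ∧ (Boo.Q2 Prop ↔ Std.Q2) ∧
    ∃ (B : Type) (_ : CompleteBooleanAlgebra B), Nontrivial B ∧
      (∀ x : ℕ → B, ⨆ X : Set ℕ, Boo.eqv x (fun n => ⨆ _ : n ∈ X, ⊤) = ⊤) ∧
      Boo.Q1 B = ⊥ ∧ Boo.Q2 B = ⊥ :=
  ⟨sanity1, sanity2, boo_final'⟩

end Pool.Agent.Results.MP_0d317a_lc.BooleanValuedFailure
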