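import Mathlib
import Pool.Agent.Helper65.TT_Omega1

/-!
# Under `◇` the non-Tukey-top ultrafilters are not closed under Fubini products

MP_0d317a_lc, Q1 and Q2.  Assuming Jensen's principle `◇` there are nonprincipal
non-Tukey-top ultrafilters `U`, `V` on `ω` such that even the product directed set `U × V` is
Tukey-top; hence so is the Fubini product `U · V`.  So the statements of Q1 and Q2 both fail
under `◇`, and neither is provable in ZFC.
-/

open Set Filter Cardinal Ordinal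

namespace Pool.Agent.Results.MP_0d317a_lc.DiamondFubiniTop

/-- The well-ordered set `ω₁` of countable ordinals. -/
abbrev Omega1 : Type 1 := Set.Iio (ω₁ : Ordinal.{0})

/-- Jensen's principle `◇`: there are sets `a δ` (`δ < ω₁`) such that for every
`A ⊆ ω₁` the set of `δ < ω₁` with `A ∩ δ = a δ` is stationary (meets every closed unbounded
subset of `ω₁`). -/
def Diamond : Prop :=
  ∃ a : Omega1 → Set Omega1, ∀ A : Set Omega1, IsStationary {δ | A ∩ Set.Iio δ = a δ}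

/-- Tukey reduction `D ≤_T E`: some map sends unbounded sets to unbounded sets. -/
def TukeyLE (D E : Type*) [Preorder D] [Preorder E] : Prop :=
  ∃ f : D → E, ∀ s : Set D, ¬ BddAbove s → ¬ BddAbove (f '' s)

/-- The directed set `(U, ⊇)` of an ultrafilter. -/
abbrev Dir {X : Type} (U : Ultrafilter X) : Type := {A : Set X // A ∈ U}ᵒᵈ

/-- `U` is Tukey-top: `([𝔠]^{<ω}, ⊆) ≤_T (U, ⊇)`.  Here `Set ℕ` has cardinality `𝔠`
(`mk_set_nat` below), so `Finset (Set ℕ)` is `[𝔠]^{<ω}`. -/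
def TukeyTop {X : Type} (U : Ultrafilter X) : Prop := TukeyLE (Finset (Set ℕ)) (Dir U)

/-- All ultrafilters in the problem are nonprincipal. -/
def Nonprincipal {X : Type} (U : Ultrafilter X) : Prop := ∀ x, {x} ∉ U

/-- The Fubini sum `U-∑ₙ Vₙ` on `ω × ω` (see `mem_fubiniSum`). -/
def fubiniSum (U : Ultrafilter ℕ) (V : ℕ → Ultrafilter ℕ) : Ultrafilter (ℕ × ℕ) :=
  U.bind (fun n => (V n).map (Prod.mk n))

/-- The Fubini product `U · V`. -/
def fubiniProd (U V : Ultrafilter ℕ) : Ultrafilter (ℕ × ℕ) := fubiniSum U (fun _ => V)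

/-- Q1: Fubini sums of non-Tukey-top ultrafilters are non-Tukey-top. -/
def Q1 : Prop := ∀ (U : Ultrafilter ℕ) (V : ℕ → Ultrafilter ℕ), Nonprincipal U →
  (∀ n, Nonprincipal (V n)) → ¬ TukeyTop U → (∀ n, ¬ TukeyTop (V n)) →
    ¬ TukeyTop (fubiniSum U V)

/-- Q2: Fubini products of non-Tukey-top ultrafilters are non-Tukey-top. -/
def Q2 : Prop := ∀ U V : Ultrafilter ℕ, Nonprincipal U → Nonprincipal V →
  ¬ TukeyTop U → ¬ TukeyTop V → ¬ TukeyTop (fubiniProd U V)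

theorem mk_set_nat : #(Set ℕ) = 𝔠 := by simp

theorem mem_fubiniSum (U : Ultrafilter ℕ) (V : ℕ → Ultrafilter ℕ) (A : Set (ℕ × ℕ)) :
    A ∈ fubiniSum U V ↔ {n | {m | (n, m) ∈ A} ∈ V n} ∈ U := Iff.rfl

/-- Unbounded families of finite sets are those with infinite union. -/
lemma bddAbove_finset {ι : Type*} (s : Set (Finset ι)) :
    BddAbove s ↔ (⋃ F ∈ s, (F : Set ι)).Finite := by
  classical
  constructor
  · rintro ⟨B, hB⟩
    refine B.finite_toSet.subset ?_
    intro x hx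
    simp only [mem_iUnion, exists_prop] at hx
    obtain ⟨F, hF, hxF⟩ := hx
    exact hB hF hxF
  · intro h
    refine ⟨h.toFinset, fun F hF x hx => ?_⟩
    rw [Set.Finite.mem_toFinset]
    simp only [mem_iUnion, exists_prop]
    exact ⟨F, hF, hx⟩

/-- A family of sets witnessing Tukey-topness. -/
lemma tukeyTop_of_family {X : Type} (U : Ultrafilter X) (A : Set ℕ → Set X)
    (hA : ∀ i, A i ∈ U) (hI : ∀ I : Set (Set ℕ), I.Infinite → (⋂ i ∈ I, A i) ∉ U) :
    TukeyTop U := by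
  classical
  refine ⟨fun F => OrderDual.toDual ⟨⋂ i ∈ F, A i, (Filter.biInter_finset_mem F).2
    (fun i _ => hA i)⟩, fun s hs hb => ?_⟩
  rw [bddAbove_finset] at hs
  obtain ⟨B, hB⟩ := hb
  refine hI _ hs (mem_of_superset (OrderDual.ofDual B).2 ?_)
  intro x hx
  simp only [mem_iInter, mem_iUnion, exists_prop]
  rintro i ⟨F, hF, hiF⟩
  have h1 : (OrderDual.ofDual B).1 ⊆ ⋂ i ∈ F, A i := hB (mem_image_of_mem _ hF)
  have h2 := h1 hx
  simp only [mem_iInter] at h2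
  exact h2 i hiF

/-- A Tukey-top ultrafilter has a witnessing family. -/
lemma family_of_tukeyTop {X : Type} (U : Ultrafilter X) (h : TukeyTop U) :
    ∃ A : Set ℕ → Set X, (∀ i, A i ∈ U) ∧
      ∀ I : Set (Set ℕ), I.Infinite → (⋂ i ∈ I, A i) ∉ U := by
  classical
  obtain ⟨f, hf⟩ := h
  refine ⟨fun i => (OrderDual.ofDual (f {i})).1, fun i => (OrderDual.ofDual (f {i})).2,
    fun I hI hmem => ?_⟩
  refine hf ((fun i => ({i} : Finset (Set ℕ))) '' I) ?_ ?_
  · rw [bddAbove_finset]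
    intro hfin
    apply hI
    refine hfin.subset ?_
    intro i hi
    simp only [mem_iUnion, exists_prop]
    exact ⟨{i}, mem_image_of_mem _ hi, by simp⟩
  · refine ⟨OrderDual.toDual ⟨_, hmem⟩, ?_⟩
    rintro _ ⟨_, ⟨i, hi, rfl⟩, rfl⟩
    show (⋂ i ∈ I, (OrderDual.ofDual (f {i})).1) ⊆ (OrderDual.ofDual (f {i})).1
    exact biInter_subset_of_mem hi

/-- The main construction transported to `ℕ`. -/
lemma construction_nat (S : Set Omega1)
    (Y : Omega1 → ℕ → Set ℕ) (hY : ∀ Z : ℕ → Set ℕ, ∃ α, Y α = Z)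
    (G : Omega1 → Omega1 → ℕ → Set ℕ)
    (hG : ∀ C : Omega1 → ℕ → Set ℕ, ∀ E : Set Omega1, IsClub E →
      ∃ δ ∈ E, δ ∉ S ∧ ∀ ξ < δ, G δ ξ = C ξ) :
    ∃ (V : Ultrafilter ℕ) (A : Omega1 → Set ℕ),
      Nonprincipal V ∧ (∀ α, A α ∈ V) ∧
      (∀ δ, TT.IsLim δ → δ ∈ S → ∀ J : Set Omega1, (∀ β ∈ J, β < δ) →
        (∀ α < δ, ∃ β ∈ J, α < β) → (⋂ β ∈ J, A β) ∉ V) ∧
      ¬ TukeyTop V := by
  classical
  obtain ⟨V0, A0, h1, h2, h3, h4⟩ := TT.main_construction TT.omega1_countable_Iio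
    TT.omega1_not_countable S Y hY G hG
  let e : ℕ × ℕ ≃ ℕ := Nat.pairEquiv
  refine ⟨V0.map e, fun α => e.symm ⁻¹' A0 α, ?_, ?_, ?_, ?_⟩
  · intro x hx
    have hx' : e ⁻¹' {x} ∈ V0 := hx
    have h5 : e ⁻¹' {x} = {e.symm x} := by
      ext y
      simp only [mem_preimage, mem_singleton_iff]
      constructor
      · rintro rfl; simp
      · rintro rfl; simp
    rw [h5] at hx'
    exact (Ultrafilter.compl_mem_iff_notMem.1 (h1 (e.symm x))) hx'
  · intro α
    have h5 : e ⁻¹' (e.symm ⁻¹' A0 α) = A0 α := by ext y; simp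
    show e ⁻¹' (e.symm ⁻¹' A0 α) ∈ V0
    rw [h5]; exact h2 α
  · intro δ hδ hδS J hJ hJc hmem
    apply h3 δ hδ hδS J hJ hJc
    have h5 : e ⁻¹' (⋂ β ∈ J, e.symm ⁻¹' A0 β) = ⋂ β ∈ J, A0 β := by
      ext y; simp
    have h6 : e ⁻¹' (⋂ β ∈ J, e.symm ⁻¹' A0 β) ∈ V0 := hmem
    rwa [h5] at h6
  · intro htop
    obtain ⟨A, hA, hI⟩ := family_of_tukeyTop _ htop
    -- an injection of `ω₁` into `Set ℕ`
    have hinj : Nonempty (Omega1 ↪ Set ℕ) := by
      rw [← Cardinal.lift_mk_le']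
      have : #Omega1 = Cardinal.lift.{1, 0} (ℵ_ 1 : Cardinal.{0}) := by
        rw [Cardinal.mk_Iio_ordinal, Ordinal.card_omega]
      rw [this, mk_set_nat]
      simpa using Cardinal.aleph_one_le_continuum
    obtain ⟨φ⟩ := hinj
    obtain ⟨K, hK, hmem⟩ := h4 (fun ξ => e ⁻¹' (A (φ ξ))) (fun ξ => hA (φ ξ))
    refine hI (φ '' K) (hK.image φ.injective.injOn) ?_
    show e ⁻¹' (⋂ i ∈ φ '' K, A i) ∈ V0
    refine mem_of_superset hmem ?_
    intro x hx
    simp only [mem_iInter, mem_preimage] at hx ⊢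
    rintro _ ⟨ξ, hξ, rfl⟩
    exact hx ξ hξ

/-- **Theorem.** Assume `◇`.  Then Q1 and Q2 both fail.  More precisely, there are nonprincipal
non-Tukey-top ultrafilters `U`, `V` on `ω` for which the product directed set
`(U, ⊇) × (V, ⊇)` is Tukey above `[𝔠]^{<ω}` and the Fubini product `U · V` is Tukey-top. -/
theorem result (h : Diamond) : ¬ Q1 ∧ ¬ Q2 ∧
    ∃ U V : Ultrafilter ℕ, Nonprincipal U ∧ Nonprincipal V ∧ ¬ TukeyTop U ∧ ¬ TukeyTop V ∧
      TukeyTop (fubiniProd U V) ∧ TukeyLE (Finset (Set ℕ)) (Dir U × Dir V) := by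
  classical
  obtain ⟨G, hG⟩ := TT.diamond_guess h
  -- decoding
  let dec : Set ℕ → ℕ → Set ℕ := fun s j => {l | Nat.pair j l + 1 ∈ s}
  let code : Prop → (ℕ → Set ℕ) → Set ℕ := fun b C =>
    {m | (m = 0 ∧ b) ∨ ∃ j l, m = Nat.pair j l + 1 ∧ l ∈ C j}
  have hdec : ∀ b C, dec (code b C) = C := by
    intro b C
    funext j
    ext l
    simp only [dec, code]
    constructor
    · rintro (⟨h1, _⟩ | ⟨j', l', h1, h2⟩)
      · omega
      · have h3 : Nat.pair j l = Nat.pair j' l' := by omega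
        obtain ⟨rfl, rfl⟩ := Nat.pair_eq_pair.1 h3
        exact h2
    · intro hl
      exact Or.inr ⟨j, l, rfl, hl⟩
  have hbit : ∀ b C, 0 ∈ code b C ↔ b := by
    intro b C
    simp only [code]
    constructor
    · rintro (⟨_, h1⟩ | ⟨j, l, h1, _⟩)
      · exact h1
      · omega
    · intro hb
      exact Or.inl ⟨rfl, hb⟩
  -- the least element
  have hω : (0 : Ordinal.{0}) < ω₁ := Ordinal.omega_pos 1
  let bot : Omega1 := ⟨0, hω⟩
  have hbot : ∀ δ : Omega1, TT.IsLim δ → bot < δ := by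
    rintro δ ⟨⟨β, hβ⟩, _⟩
    exact lt_of_le_of_lt (show bot ≤ β from (zero_le : (0 : Ordinal.{0}) ≤ β.1)) hβ
  -- the stationary set
  let S : Set Omega1 := {δ | 0 ∈ G δ bot}
  let Y : Omega1 → ℕ → Set ℕ := fun δ => dec (G δ bot)
  have hY : ∀ Z : ℕ → Set ℕ, ∃ α, Y α = Z := by
    intro Z
    obtain ⟨δ, -, hδ, hδ'⟩ := hG (fun _ => code False Z) univ IsClub.univ
    refine ⟨δ, ?_⟩
    simp only [Y]
    rw [hδ' bot (hbot δ hδ), hdec]
  have key : ∀ b : Prop, ∀ C : Omega1 → ℕ → Set ℕ, ∀ E : Set Omega1, IsClub E →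
      ∃ δ ∈ E, (δ ∈ S ↔ b) ∧ ∀ ξ < δ, dec (G δ ξ) = C ξ := by
    intro b C E hE
    obtain ⟨δ, hδE, hδ, hδ'⟩ := hG (fun ξ => code b (C ξ)) E hE
    refine ⟨δ, hδE, ?_, fun ξ hξ => ?_⟩
    · show 0 ∈ G δ bot ↔ b
      rw [hδ' bot (hbot δ hδ)]
      exact hbit b _
    · rw [hδ' ξ hξ, hdec]
  -- the two ultrafilters
  obtain ⟨U, AU, hU1, hU2, hU3, hU4⟩ := construction_nat S Y hY (fun δ ξ => dec (G δ ξ))
    (fun C E hE => by
      obtain ⟨δ, h1, h2, h3⟩ := key False C E hE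
      exact ⟨δ, h1, fun h => h2.1 h, h3⟩)
  obtain ⟨V, AV, hV1, hV2, hV3, hV4⟩ := construction_nat Sᶜ Y hY (fun δ ξ => dec (G δ ξ))
    (fun C E hE => by
      obtain ⟨δ, h1, h2, h3⟩ := key True C E hE
      exact ⟨δ, h1, fun h => h (h2.2 trivial), h3⟩)
  -- an injection of `Set ℕ` into `ω₁`
  have hφ : ∀ x : Set ℕ, ∃ δ : Omega1, G δ bot = x := by
    intro x
    obtain ⟨δ, -, hδ, hδ'⟩ := hG (fun _ => x) univ IsClub.univ
    exact ⟨δ, hδ' bot (hbot δ hδ)⟩
  choose φ hφ using hφ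
  have hφinj : Function.Injective φ := by
    intro x y hxy
    rw [← hφ x, ← hφ y, hxy]
  -- every infinite index set is killed on one of the two sides
  have hkill : ∀ I : Set (Set ℕ), I.Infinite →
      (⋂ i ∈ I, AU (φ i)) ∉ U ∨ (⋂ i ∈ I, AV (φ i)) ∉ V := by
    intro I hI
    obtain ⟨δ, J, hJ, hδ, hJ1, hJ2⟩ := TT.exists_lim_of_infinite TT.omega1_countable_Iio
      TT.omega1_not_countable (φ '' I) (hI.image hφinj.injOn)
    by_cases hδS : δ ∈ S
    · left
      intro hmem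
      apply hU3 δ hδ hδS J hJ1 hJ2
      refine mem_of_superset hmem ?_
      intro x hx
      simp only [mem_iInter] at hx ⊢
      intro β hβ
      obtain ⟨i, hi, rfl⟩ := hJ hβ
      exact hx i hi
    · right
      intro hmem
      apply hV3 δ hδ hδS J hJ1 hJ2
      refine mem_of_superset hmem ?_
      intro x hx
      simp only [mem_iInter] at hx ⊢
      intro β hβ
      obtain ⟨i, hi, rfl⟩ := hJ hβ
      exact hx i hi
  -- the Fubini product is top
  have htop : TukeyTop (fubiniProd U V) := by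
    refine tukeyTop_of_family _ (fun i => AU (φ i) ×ˢ AV (φ i)) (fun i => ?_) (fun I hI hmem => ?_)
    · show {n | {m | (n, m) ∈ AU (φ i) ×ˢ AV (φ i)} ∈ V} ∈ U
      refine mem_of_superset (hU2 (φ i)) ?_
      intro n hn
      refine mem_of_superset (hV2 (φ i)) ?_
      intro m hm
      exact ⟨hn, hm⟩
    · have hmem' : {n | {m | (n, m) ∈ ⋂ i ∈ I, AU (φ i) ×ˢ AV (φ i)} ∈ V} ∈ U := hmem
      rcases hkill I hI with h1 | h1
      · apply h1
        refine mem_of_superset hmem' ?_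
        intro n hn
        have hn' : {m | (n, m) ∈ ⋂ i ∈ I, AU (φ i) ×ˢ AV (φ i)} ∈ V := hn
        obtain ⟨m, hm⟩ := Ultrafilter.nonempty_of_mem hn'
        have hm' : ((n, m) : ℕ × ℕ) ∈ ⋂ i ∈ I, AU (φ i) ×ˢ AV (φ i) := hm
        simp only [mem_iInter] at hm' ⊢
        exact fun i hi => (hm' i hi).1
      · apply h1
        obtain ⟨n, hn⟩ := Ultrafilter.nonempty_of_mem hmem'
        have hn' : {m | (n, m) ∈ ⋂ i ∈ I, AU (φ i) ×ˢ AV (φ i)} ∈ V := hn
        refine mem_of_superset hn' ?_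
        intro m hm
        have hm' : ((n, m) : ℕ × ℕ) ∈ ⋂ i ∈ I, AU (φ i) ×ˢ AV (φ i) := hm
        simp only [mem_iInter] at hm' ⊢
        exact fun i hi => (hm' i hi).2
  -- the product directed set is top
  have htop2 : TukeyLE (Finset (Set ℕ)) (Dir U × Dir V) := by
    refine ⟨fun F => (OrderDual.toDual ⟨⋂ i ∈ F, AU (φ i), (Filter.biInter_finset_mem F).2
      (fun i _ => hU2 _)⟩, OrderDual.toDual ⟨⋂ i ∈ F, AV (φ i), (Filter.biInter_finset_mem F).2
      (fun i _ => hV2 _)⟩), fun s hs hb => ?_⟩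
    rw [bddAbove_finset] at hs
    obtain ⟨B, hB⟩ := hb
    rcases hkill _ hs with h1 | h1
    · refine h1 (mem_of_superset (OrderDual.ofDual B.1).2 ?_)
      intro x hx
      simp only [mem_iInter, mem_iUnion, exists_prop]
      rintro i ⟨F, hF, hiF⟩
      have h2 : (OrderDual.ofDual B.1).1 ⊆ ⋂ i ∈ F, AU (φ i) := (hB (mem_image_of_mem _ hF)).1
      have h3 := h2 hx
      simp only [mem_iInter] at h3
      exact h3 i hiF
    · refine h1 (mem_of_superset (OrderDual.ofDual B.2).2 ?_)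
      intro x hx
      simp only [mem_iInter, mem_iUnion, exists_prop]
      rintro i ⟨F, hF, hiF⟩
      have h2 : (OrderDual.ofDual B.2).1 ⊆ ⋂ i ∈ F, AV (φ i) := (hB (mem_image_of_mem _ hF)).2
      have h3 := h2 hx
      simp only [mem_iInter] at h3
      exact h3 i hiF
  refine ⟨fun hQ => ?_, fun hQ => ?_, U, V, hU1, hV1, hU4, hV4, htop, htop2⟩
  · exact hQ U (fun _ => V) hU1 (fun _ => hV1) hU4 (fun _ => hV4) htop
  · exact hQ U V hU1 hV1 hU4 hV4 htop

end Pool.Agent.Results.MP_0d317a_lc.DiamondFubiniTop
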